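import Pool.Agent.H73.GWQ.Stmts

/-!
# Row GLQ of the board `gwq` (MP_213ba5_lc): global alignment
-/

set_option autoImplicit false

open Classical

namespace GWQ

section qm

variable {G V : Type*} [Group G] (D : QM G V)

theorem GLQ_d (g h : G) : D.d g h = D.nm (g⁻¹ * h) := by
  have h1 := D.inv g⁻¹ g h
  rw [inv_mul_cancel] at h1
  exact h1.symm

theorem GLQ_mul (g h : G) : D.nm (g * h) ≤ D.nm g + D.nm h := by
  have h1 := D.tri 1 g (g * h)
  have h2 := D.inv g 1 h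
  rw [mul_one] at h2
  unfold QM.nm
  omega

theorem GLQ_tri (g h : G) : D.nm h ≤ D.nm g + D.d g h := D.tri 1 g h

/-- One step of the induction from the top frame downwards. -/
theorem GLQ_step (h4 : H4QStmt D) (K : ℕ) (hK : 4 * D.δ ≤ K) (Y A z : G)
    (h1 : D.nm A + D.d A z ≤ D.nm z + 5 * K) (h2 : D.nm Y + D.d Y A ≤ D.nm A + 4 * K)
    (h3 : D.nm Y + 3 * K + 1 ≤ D.nm A) : D.nm Y + D.d Y z ≤ D.nm z + 5 * K := by
  have h5 := h4 1 A Y z
  have h6 := GLQ_tri D Y z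
  have h7 := D.comm A Y
  have e1 : D.d 1 A = D.nm A := rfl
  have e2 : D.d 1 Y = D.nm Y := rfl
  have e3 : D.d 1 z = D.nm z := rfl
  rw [e1, e2, e3, h7] at h5
  rcases le_total (D.nm Y + D.d A z) (D.nm z + D.d Y A) with h8 | h8
  · rw [max_eq_right h8] at h5
    omega
  · rw [max_eq_left h8] at h5
    omega

end qm

section code

variable {ι G V : Type*} [Fintype ι] [Group G] (C : QCode ι G V)

theorem GLQ_app (w : ℕ → G) (c m : List ι) : W C w (c ++ m) = W C w m * vv C w c m.length := by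
  induction c with
  | nil =>
    simp [vv]
  | cons s c ih =>
    have e1 : W C w (s :: c ++ m) = W C w (c ++ m) * C.c s ^ 5 * w ((c ++ m).length + 1) := rfl
    have e2 : vv C w (s :: c) m.length =
        vv C w c m.length * C.c s ^ 5 * w (m.length + c.length + 1) := rfl
    have e : (c ++ m).length + 1 = m.length + c.length + 1 := by
      rw [List.length_append]
      omega
    rw [e1, e2, ih, e]
    simp only [mul_assoc]

/-- The end of a frame. -/
theorem GLQ_end (w : ℕ → G) (f : ι × List ι) (Q : List (ι × List ι)) (b : List ι) :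
    W C w (GWT.full (f :: Q) b) =
      W C w (GWT.full Q b) * C.c f.1 ^ 5 * tl C w f.2 (GWT.full Q b).length := by
  have h1 : GWT.full (f :: Q) b = f.2 ++ f.1 :: GWT.full Q b := rfl
  rw [h1, GLQ_app]
  unfold tl
  have h2 : W C w (f.1 :: GWT.full Q b) =
      W C w (GWT.full Q b) * C.c f.1 ^ 5 * w ((GWT.full Q b).length + 1) := rfl
  rw [h2, List.length_cons]
  group

theorem GLQ_suf (w : ℕ → G) (P F : List (ι × List ι)) (b : List ι) (h : Ok C w (P ++ F) b) :
    Ok C w F b := by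
  induction P with
  | nil => exact h
  | cons f P ih => exact ih h.2.2

/-- The estimates in one frame. -/
theorem GLQ_frame (hg : GSQStmt C) (g v : G) (s : ι) (h1 : ¬ LB C g s) (h2 : ¬ RB C s v) :
    (C.nm (g * C.c s) + C.d (g * C.c s) (g * C.c s ^ 5 * v) ≤
      C.nm (g * C.c s ^ 5 * v) + 3 * C.K) ∧
    (C.nm (g * C.c s ^ 2) + C.d (g * C.c s ^ 2) (g * C.c s ^ 5 * v) ≤
      C.nm (g * C.c s ^ 5 * v) + 3 * C.K) ∧
    (C.nm (g * C.c s) + 3 * C.Λ ≤ C.nm (g * C.c s ^ 5 * v) + 3 * C.K) ∧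
    (C.nm (g * C.c s ^ 2) + 2 * C.Λ ≤ C.nm (g * C.c s ^ 5 * v) + 3 * C.K) := by
  have h3 := hg g v s h1 h2
  have hlo : C.Λ ≤ C.nm (C.c s) := C.lo s
  have hA : C.d (g * C.c s) (g * C.c s ^ 5 * v) ≤ 3 * C.nm (C.c s) + C.nm (C.c s * v) := by
    rw [GLQ_d]
    have e : (g * C.c s)⁻¹ * (g * C.c s ^ 5 * v) = C.c s * (C.c s * (C.c s * (C.c s * v))) := by
      simp only [pow_succ, pow_zero, one_mul, mul_inv_rev, mul_assoc, inv_mul_cancel_left]
    rw [e]
    have i1 := GLQ_mul C.toQM (C.c s) (C.c s * (C.c s * (C.c s * v)))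
    have i2 := GLQ_mul C.toQM (C.c s) (C.c s * (C.c s * v))
    have i3 := GLQ_mul C.toQM (C.c s) (C.c s * v)
    omega
  have hB : C.d (g * C.c s ^ 2) (g * C.c s ^ 5 * v) ≤ 2 * C.nm (C.c s) + C.nm (C.c s * v) := by
    rw [GLQ_d]
    have e : (g * C.c s ^ 2)⁻¹ * (g * C.c s ^ 5 * v) = C.c s * (C.c s * (C.c s * v)) := by
      simp only [pow_succ, pow_zero, one_mul, mul_inv_rev, mul_assoc, inv_mul_cancel_left]
    rw [e]
    have i2 := GLQ_mul C.toQM (C.c s) (C.c s * (C.c s * v))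
    have i3 := GLQ_mul C.toQM (C.c s) (C.c s * v)
    omega
  have hAB : C.nm (g * C.c s ^ 2) ≤ C.nm (g * C.c s) + C.nm (C.c s) := by
    have e : g * C.c s ^ 2 = g * C.c s * C.c s := by
      rw [pow_two, mul_assoc]
    rw [e]
    exact GLQ_mul C.toQM _ _
  refine ⟨by omega, by omega, by omega, by omega⟩

/-- The first point of the next frame. -/
theorem GLQ_next (h4 : H4QStmt C.toQM) (Y x : G) (s : ι) (h1 : ¬ LB C x s)
    (hY : C.nm Y + C.d Y x ≤ C.nm x + 3 * C.K) (hY2 : C.nm Y + 2 * C.Λ ≤ C.nm x + 3 * C.K) :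
    C.nm Y + C.d Y (x * C.c s) ≤ C.nm (x * C.c s) + 4 * C.K ∧
      C.nm x + 3 * C.K + 1 ≤ C.nm (x * C.c s) + C.Λ' := by
  have h2 : C.nm x + 3 * C.K + 1 ≤ C.nm (x * C.c s) + C.nm (C.c s) := by
    unfold LB at h1
    omega
  have hhi : C.nm (C.c s) ≤ C.Λ' := C.hi s
  have hδ := C.hδ
  have hr := C.ratio
  have hx : C.d x (x * C.c s) = C.nm (C.c s) := by
    rw [GLQ_d, inv_mul_cancel_left]
  refine ⟨?_, by omega⟩
  have h5 := h4 1 x Y (x * C.c s)
  have e1 : C.d 1 x = C.nm x := rfl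
  have e2 : C.d 1 Y = C.nm Y := rfl
  have e3 : C.d 1 (x * C.c s) = C.nm (x * C.c s) := rfl
  rw [e1, e2, e3, hx, C.comm x Y] at h5
  have h6 := GLQ_tri C.toQM Y (x * C.c s)
  rcases le_total (C.nm Y + C.nm (C.c s)) (C.nm (x * C.c s) + C.d Y x) with h8 | h8
  · rw [max_eq_right h8] at h5
    omega
  · rw [max_eq_left h8] at h5
    omega

/-- Global alignment, by induction from the top frame downwards. -/
theorem GLQ_glob (h4 : H4QStmt C.toQM) (hg : GSQStmt C) (w : ℕ → G) (b : List ι)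
    (P : List (ι × List ι)) : ∀ (f : ι × List ι) (Q : List (ι × List ι)),
    Ok C w (P ++ f :: Q) b →
    C.nm (W C w (GWT.full Q b) * C.c f.1) +
        C.d (W C w (GWT.full Q b) * C.c f.1) (W C w (GWT.full (P ++ f :: Q) b)) ≤
      C.nm (W C w (GWT.full (P ++ f :: Q) b)) + 5 * C.K ∧
    C.nm (W C w (GWT.full Q b) * C.c f.1 ^ 2) +
        C.d (W C w (GWT.full Q b) * C.c f.1 ^ 2) (W C w (GWT.full (P ++ f :: Q) b)) ≤
      C.nm (W C w (GWT.full (P ++ f :: Q) b)) + 5 * C.K ∧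
    C.nm (W C w (GWT.full Q b) * C.c f.1) + P.length + C.Λ ≤
      C.nm (W C w (GWT.full (P ++ f :: Q) b)) := by
  have hr := C.ratio
  have hb := C.big
  have hK := C.K_pos
  induction P using List.reverseRecOn with
  | nil =>
    intro f Q hok
    have hok' : Ok C w (f :: Q) b := hok
    obtain ⟨i1, i2, i3, i4⟩ := GLQ_frame C hg _ _ f.1 hok'.1 hok'.2.1
    rw [List.nil_append, GLQ_end]
    refine ⟨by omega, by omega, ?_⟩
    rw [List.length_nil]
    omega
  | append_singleton P f' ih =>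
    intro f Q hok
    have e : P ++ [f'] ++ f :: Q = P ++ f' :: (f :: Q) := by
      simp
    rw [e] at hok
    rw [e]
    have hok2 : Ok C w (f' :: (f :: Q)) b := GLQ_suf C w P _ b hok
    have hok3 : Ok C w (f :: Q) b := hok2.2.2
    obtain ⟨i1, i2, i3, i4⟩ := GLQ_frame C hg _ _ f.1 hok3.1 hok3.2.1
    obtain ⟨j1, j2, j3⟩ := ih f' (f :: Q) hok
    have hLB : ¬ LB C (W C w (GWT.full (f :: Q) b)) f'.1 := hok2.1
    rw [← GLQ_end] at i1 i2 i3 i4
    obtain ⟨k1, k2⟩ := GLQ_next C h4 _ _ f'.1 hLB i1 (by omega)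
    obtain ⟨k3, -⟩ := GLQ_next C h4 _ _ f'.1 hLB i2 i4
    refine ⟨?_, ?_, ?_⟩
    · exact GLQ_step C.toQM h4 C.K C.hδ _ _ _ j1 k1 (by omega)
    · exact GLQ_step C.toQM h4 C.K C.hδ _ _ _ j1 k3 (by omega)
    · rw [List.length_append, List.length_singleton]
      omega

/-- The number of frames below. -/
theorem GLQ_low (hg : GSQStmt C) (w : ℕ → G) (b : List ι)
    (Q : List (ι × List ι)) : ∀ (f : ι × List ι), Ok C w (f :: Q) b →
    Q.length ≤ C.nm (W C w (GWT.full Q b) * C.c f.1) := by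
  have hr := C.ratio
  have hb := C.big
  have hK := C.K_pos
  induction Q with
  | nil =>
    intro f _
    simp
  | cons f' Q ih =>
    intro f hok
    have hok3 : Ok C w (f' :: Q) b := hok.2.2
    obtain ⟨i1, i2, i3, i4⟩ := GLQ_frame C hg _ _ f'.1 hok3.1 hok3.2.1
    rw [← GLQ_end] at i3
    have hLB : ¬ LB C (W C w (GWT.full (f' :: Q) b)) f.1 := hok.1
    have hhi : C.nm (C.c f.1) ≤ C.Λ' := C.hi f.1
    have h2 := ih f' hok3
    unfold LB at hLB
    rw [List.length_cons]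
    omega

theorem GLQ (h4 : H4QStmt C.toQM) (hg : GSQStmt C) : GLQStmt C := by
  intro w P Q f b hok
  obtain ⟨i1, i2, i3⟩ := GLQ_glob C h4 hg w b P f Q hok
  have i4 := GLQ_low C hg w b Q f (GLQ_suf C w P _ b hok)
  exact ⟨i1, by omega, i4, i3⟩

end code

end GWQ
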